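import Pool.Agent.Helper44.GB.Graph

/-!
Labelled monotone sequences of letters (letters from a poset with top) in a poset without chains
of three elements. The letters `q1 a`, `q2 a b` play the role of the chains `{a}`, `{a, b}`.
Generalisation of helper44's `GB/Graph.lean`.
-/

set_option autoImplicit false

universe u v

namespace Pool.Agent.Helper83.NX

set_option linter.unusedSectionVars false

variable {D : Type u} [PartialOrder D] {Q : Type v} [PartialOrder Q] [OrderTop Q]

section

variable (r : ℕ) (lam : (ℕ → Q) → D)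

/-- monotone sequences which are `⊤` from the index `r` on -/
def V (δ : ℕ → Q) : Prop := Monotone δ ∧ ∀ j, r ≤ j → δ j = ⊤

/-- the shift -/
def sh (δ : ℕ → Q) : ℕ → Q := fun j => δ (j + 1)

/-- the lift of `lam` to reduced walks -/
noncomputable def zz : ℕ → (ℕ → Q) → List D
  | 0, δ => [lam δ]
  | n + 1, δ => Helper44.GB.ext (zz n (sh δ)) (lam δ)

variable {r lam}

lemma V.sh {δ : ℕ → Q} (h : V r δ) : V r (sh δ) :=
  ⟨fun a b hab => h.1 (by omega), fun j hj => h.2 _ (by omega)⟩

lemma sh_top : sh (fun _ => (⊤ : Q)) = fun _ => ⊤ := rfl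

lemma zz_stable (n : ℕ) : ∀ δ : ℕ → Q, (∀ j, n ≤ j → δ j = ⊤) →
    zz lam (n + 1) δ = zz lam n δ := by
  induction n with
  | zero =>
    intro δ h
    have h1 : sh δ = δ := by
      funext j
      rw [sh, h _ (Nat.zero_le _), h _ (Nat.zero_le _)]
    simp only [zz]
    rw [h1, Helper44.GB.ext_self]
  | succ n ih =>
    intro δ h
    have := ih (sh δ) (fun j hj => h _ (by omega))
    rw [zz, this]
    rfl

lemma zz_eq {δ : ℕ → Q} (h : V r δ) : zz lam r δ = Helper44.GB.ext (zz lam r (sh δ)) (lam δ) := by
  rw [← zz_stable r δ h.2]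
  rfl

variable (h1 : ∀ δ δ' : ℕ → Q, V r δ → V r δ' → (∀ j, δ j ≤ δ' j) →
    (∀ j, δ' j ≤ δ (j + 1)) → lam δ ≤ lam δ' ∨ lam δ' ≤ lam δ)

include h1

lemma zz_red (m : ℕ) : ∀ δ : ℕ → Q, V r δ → (∀ j, m ≤ j → δ j = ⊤) →
    Helper44.GB.Red (zz lam r δ) ∧ (zz lam r δ).head? = some (lam δ) ∧ (zz lam r δ).length ≤ m + 1 ∧
      [lam (fun _ => ⊤)] <:+ zz lam r δ := by
  induction m with
  | zero =>
    intro δ hV h
    have h2 : δ = fun _ => ⊤ := funext fun j => h j (Nat.zero_le _)
    subst h2
    have h3 : ∀ n, zz lam n (fun _ => ⊤) = [lam (fun _ => ⊤)] := by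
      intro n
      induction n with
      | zero => rfl
      | succ n ih => rw [zz, sh_top, ih, Helper44.GB.ext_self]
    rw [h3]
    exact ⟨Helper44.GB.Red.one _, by simp, by simp, List.suffix_rfl⟩
  | succ m ih =>
    intro δ hV h
    obtain ⟨k1, k2, k3, k4⟩ := ih (sh δ) hV.sh (fun j hj => h _ (by omega))
    rw [zz_eq hV]
    have hc : lam δ = lam (sh δ) ∨ Helper44.GB.Cp (lam δ) (lam (sh δ)) := by
      rcases h1 δ (sh δ) hV hV.sh (fun j => hV.1 (by omega)) (fun j => le_rfl) with h | h
      · rcases h.eq_or_lt with h | h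
        · exact Or.inl h
        · exact Or.inr (Or.inl h)
      · rcases h.eq_or_lt with h | h
        · exact Or.inl h.symm
        · exact Or.inr (Or.inr h)
    generalize zz lam r (sh δ) = t at k1 k2 k3 k4 ⊢
    match t, k1, k2, k3, k4 with
    | b :: t, k1, k2, k3, k4 =>
      simp only [List.head?_cons, Option.some.injEq] at k2
      refine ⟨Helper44.GB.red_ext k1 (by rw [k2]; exact hc), Helper44.GB.head_ext _ _, (Helper44.GB.length_ext _ _).trans (by omega),
        Helper44.GB.last_ext _ _ _ _ k4⟩

lemma zz_nb (hD : ∀ a b c : D, a < b → b < c → False) (m : ℕ) :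
    ∀ δ δ' : ℕ → Q, V r δ → V r δ' → (∀ j, m ≤ j → δ j = ⊤) → (∀ j, m ≤ j → δ' j = ⊤) →
      (∀ j, δ j ≤ δ' j) → (∀ j, δ' j ≤ δ (j + 1)) → Helper44.GB.Nb (zz lam r δ) (zz lam r δ') := by
  have hred : ∀ δ : ℕ → Q, V r δ →
      Helper44.GB.Red (zz lam r δ) ∧ (zz lam r δ).head? = some (lam δ) := fun δ hV =>
    ⟨(zz_red h1 r δ hV hV.2).1, (zz_red h1 r δ hV hV.2).2.1⟩
  -- the step
  have step : ∀ δ δ' : ℕ → Q, V r δ → V r δ' → (∀ j, δ j ≤ δ' j) →
      (∀ j, δ' j ≤ δ (j + 1)) → Helper44.GB.Nb (zz lam r δ') (zz lam r (sh δ)) →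
        Helper44.GB.Nb (zz lam r δ) (zz lam r δ') := by
    intro δ δ' hV hV' h2 h3 h4
    obtain ⟨r1, e1⟩ := hred δ hV
    obtain ⟨r2, e2⟩ := hred δ' hV'
    obtain ⟨r3, e3⟩ := hred (sh δ) hV.sh
    have c1 := h1 δ δ' hV hV' h2 h3
    have c2 := h1 δ' (sh δ) hV' hV.sh h3 (fun j => h2 (j + 1))
    have c3 := h1 δ (sh δ) hV hV.sh (fun j => hV.1 (by omega)) (fun j => le_rfl)
    have hz := zz_eq (lam := lam) hV
    have hnb : Helper44.GB.Nb (zz lam r (sh δ)) (zz lam r δ) := by
      rw [hz]
      generalize zz lam r (sh δ) = t at r3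
      match t, r3 with
      | b :: t, _ => exact Helper44.GB.nb_ext b t _
    by_cases hac : lam δ = lam (sh δ)
    · have : zz lam r δ = zz lam r (sh δ) := by
        refine Helper44.GB.eq_of_nb_head r3 r1 hnb e3 ?_
        rw [e1, hac]
      rw [this]
      exact h4.symm
    · by_cases hbc : lam δ' = lam (sh δ)
      · have : zz lam r δ' = zz lam r (sh δ) := by
          refine Helper44.GB.eq_of_nb_head r3 r2 h4.symm e3 ?_
          rw [e2, hbc]
        rw [this]
        exact hnb.symm
      · have hab : lam δ = lam δ' := by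
          by_contra hab
          have k1 : Helper44.GB.Cp (lam δ) (lam δ') := by
            rcases c1 with c | c
            · exact Or.inl (lt_of_le_of_ne c hab)
            · exact Or.inr (lt_of_le_of_ne c (Ne.symm hab))
          have k2 : Helper44.GB.Cp (lam δ') (lam (sh δ)) := by
            rcases c2 with c | c
            · exact Or.inl (lt_of_le_of_ne c hbc)
            · exact Or.inr (lt_of_le_of_ne c (Ne.symm hbc))
          have k3 : Helper44.GB.Cp (lam δ) (lam (sh δ)) := by
            rcases c3 with c | c
            · exact Or.inl (lt_of_le_of_ne c hac)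
            · exact Or.inr (lt_of_le_of_ne c (Ne.symm hac))
          rcases k1 with k1 | k1 <;> rcases k2 with k2 | k2 <;> rcases k3 with k3 | k3
          · exact hD _ _ _ k1 k2
          · exact hD _ _ _ k1 k2
          · exact hD _ _ _ k3 k2
          · exact hD _ _ _ k3 k1
          · exact hD _ _ _ k1 k3
          · exact hD _ _ _ k2 k3
          · exact hD _ _ _ k2 k1
          · exact hD _ _ _ k2 k1
        left
        rw [Helper44.GB.eq_ext_of_nb r3 r2 h4.symm e2, hz, hab]
  induction m with
  | zero =>
    intro δ δ' _ _ h2 h3 _ _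
    left
    have h4 : δ = fun _ => ⊤ := funext fun j => h2 j (Nat.zero_le _)
    have h5 : δ' = fun _ => ⊤ := funext fun j => h3 j (Nat.zero_le _)
    rw [h4, h5]
  | succ m ih =>
    intro δ δ' hV hV' h2 h3 h4 h5
    have k1 := ih (sh δ) (sh δ') hV.sh hV'.sh (fun j hj => h2 _ (by omega))
      (fun j hj => h3 _ (by omega)) (fun j => h4 (j + 1)) (fun j => h5 (j + 1))
    have k2 := step δ' (sh δ) hV' hV.sh h5 (fun j => h4 (j + 1)) k1
    exact step δ δ' hV hV' h4 h5 k2

/-- **There is no such labelling.** -/
theorem no_labelling (hD : ∀ a b c : D, a < b → b < c → False)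
    (mem : D → Q → Prop) (q1 : D → Q) (q2 : D → D → Q) (hm1 : ∀ a, mem a (q1 a))
    (hq : ∀ a b, Helper44.GB.Cp a b → q2 a b ≤ q1 a ∧ q2 a b ≤ q1 b ∧ mem a (q2 a b) ∧
      mem b (q2 a b))
    (h2 : ∀ δ : ℕ → Q, V r δ → ∀ d : D, (∀ j, j < r → mem d (δ j)) → lam δ ≠ d) : False := by
  classical
  -- constant sequences
  let cst : D → ℕ → Q := fun e j => if j < r then q1 e else ⊤
  have hcV : ∀ e, V r (cst e) := by
    intro e
    refine ⟨fun a b hab => ?_, fun j hj => ?_⟩
    · simp only [cst]
      by_cases hb : b < r
      · rw [if_pos hb, if_pos (by omega)]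
      · rw [if_neg hb]; exact le_top
    · simp only [cst]
      rw [if_neg (by omega)]
  have hcle : ∀ e, ∀ j, j < r → mem e (cst e j) := by
    intro e j hj
    simp only [cst]
    rw [if_pos hj]
    exact hm1 e
  have hz := fun δ hV => zz_red h1 r δ hV hV.2
  have hnb : ∀ δ δ' : ℕ → Q, V r δ → V r δ' → (∀ j, δ j ≤ δ' j) →
      (∀ j, δ' j ≤ δ (j + 1)) → Helper44.GB.Nb (zz lam r δ) (zz lam r δ') :=
    fun δ δ' hV hV' h3 h4 => zz_nb h1 hD r δ δ' hV hV' hV.2 hV'.2 h3 h4
  -- the step
  have key : ∀ n : ℕ, ∃ (e : D) (t : List D), t.length = n ∧ (e :: t) <:+ zz lam r (cst e) ∧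
      e :: t ≠ zz lam r (cst e) := by
    intro n
    induction n with
    | zero =>
      refine ⟨lam (fun _ => ⊤), [], rfl, (hz _ (hcV _)).2.2.2, fun h => ?_⟩
      have h3 := (hz _ (hcV (lam (fun _ => ⊤)))).2.1
      rw [← h] at h3
      simp only [List.head?_cons, Option.some.injEq] at h3
      exact h2 _ (hcV _) _ (hcle _) h3.symm
    | succ n ih =>
      obtain ⟨e, t, ht, h3, h4⟩ := ih
      obtain ⟨l, hl⟩ := h3
      have hl0 : l ≠ [] := by
        rintro rfl
        exact h4 (by simpa using hl)
      obtain ⟨l', b, rfl⟩ : ∃ l' b, l = l' ++ [b] :=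
        ⟨l.dropLast, l.getLast hl0, (List.dropLast_append_getLast hl0).symm⟩
      have hl' : l' ++ (b :: e :: t) = zz lam r (cst e) := by
        rw [← hl]; simp
      have hsuf : (b :: e :: t) <:+ zz lam r (cst e) := ⟨l', hl'⟩
      have hred : Helper44.GB.Red (b :: e :: t) := by
        refine Helper44.GB.red_suffix (l := l') ?_ (by simp)
        rw [hl']
        exact (hz _ (hcV e)).1
      have hcp := Helper44.GB.red_cp hred
      have hne : (b :: e :: t) ≠ zz lam r (cst b) := by
        intro h
        have h5 := (hz _ (hcV b)).2.1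
        rw [← h] at h5
        simp only [List.head?_cons, Option.some.injEq] at h5
        exact h2 _ (hcV _) _ (hcle _) h5.symm
      refine ⟨b, e :: t, by simp [ht], ?_, hne⟩
      obtain ⟨k1, k2, k3, k4⟩ := hq b e hcp
      -- first segment: from `q1 e` to `q2 b e`
      let dl : ℕ → ℕ → Q := fun k j =>
        if j < k ∧ j < r then q2 b e else if j < r then q1 e else ⊤
      have hdV : ∀ k, V r (dl k) := by
        intro k
        refine ⟨fun i j hij => ?_, fun j hj => ?_⟩
        · simp only [dl]
          split_ifs <;> first | exact le_rfl | exact le_top | exact k2 | (exfalso; omega)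
        · simp only [dl]
          rw [if_neg (by omega), if_neg (by omega)]
      have hdle : ∀ k j, j < r → mem e (dl k j) := by
        intro k j hj
        simp only [dl]
        split_ifs
        · exact k4
        · exact hm1 e
      have hall : ∀ k, (b :: e :: t) <:+ zz lam r (dl k) := by
        intro k
        induction k with
        | zero =>
          have : dl 0 = cst e := by
            funext j
            simp only [dl, cst]
            rw [if_neg (by omega)]
          rw [this]
          exact hsuf
        | succ k ihk =>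
          by_contra hcon
          have hn := hnb (dl (k + 1)) (dl k) (hdV _) (hdV _) (fun j => by
            simp only [dl]
            split_ifs <;> first | exact le_rfl | exact le_top | exact k2 | (exfalso; omega))
            (fun j => by
            simp only [dl]
            split_ifs <;> first | exact le_rfl | exact le_top | exact k2 | (exfalso; omega))
          obtain ⟨h5, a, h6⟩ := Helper44.GB.crossing hn.symm ihk hcon
          rw [h5] at h6
          simp only [List.cons.injEq] at h6
          have h7 := (hz _ (hdV (k + 1))).2.1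
          rw [← h6.2] at h7
          simp only [List.head?_cons, Option.some.injEq] at h7
          exact h2 _ (hdV (k + 1)) e (hdle _) h7.symm
      -- second segment: from `q2 b e` to `q1 b`
      let dm : ℕ → ℕ → Q := fun k j =>
        if j + k < r then q2 b e else if j < r then q1 b else ⊤
      have hmV : ∀ k, V r (dm k) := by
        intro k
        refine ⟨fun i j hij => ?_, fun j hj => ?_⟩
        · simp only [dm]
          split_ifs <;> first | exact le_rfl | exact le_top | exact k1 | (exfalso; omega)
        · simp only [dm]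
          rw [if_neg (by omega), if_neg (by omega)]
      have hmle : ∀ k j, j < r → mem b (dm k j) := by
        intro k j hj
        simp only [dm]
        split_ifs
        · exact k3
        · exact hm1 b
      have hall2 : ∀ k, (b :: e :: t) <:+ zz lam r (dm k) := by
        intro k
        induction k with
        | zero =>
          have : dm 0 = dl r := by
            funext j
            simp only [dl, dm, Nat.add_zero, and_self]
            by_cases hj : j < r
            · rw [if_pos hj, if_pos hj]
            · rw [if_neg hj, if_neg hj, if_neg hj, if_neg hj]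
          rw [this]
          exact hall r
        | succ k ihk =>
          by_contra hcon
          have hn := hnb (dm k) (dm (k + 1)) (hmV _) (hmV _) (fun j => by
            simp only [dm]
            split_ifs <;> first | exact le_rfl | exact le_top | exact k1 | (exfalso; omega))
            (fun j => by
            simp only [dm]
            split_ifs <;> first | exact le_rfl | exact le_top | exact k1 | (exfalso; omega))
          obtain ⟨h5, a, h6⟩ := Helper44.GB.crossing hn ihk hcon
          have h7 := (hz _ (hmV k)).2.1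
          rw [h5] at h7
          simp only [List.head?_cons, Option.some.injEq] at h7
          exact h2 _ (hmV k) b (hmle _) h7.symm
      have : dm r = cst b := by
        funext j
        simp only [dm, cst]
        rw [if_neg (by omega)]
      rw [← this]
      exact hall2 r
  obtain ⟨e, t, ht, h3, h4⟩ := key r
  have h5 := (hz _ (hcV e)).2.2.1
  have h6 := h3.length_le
  simp only [List.length_cons] at h6
  exact h4 (h3.eq_of_length (by simp only [List.length_cons]; omega))

end

end Pool.Agent.Helper83.NX
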