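import Pool.Agent.Helper80.FX2.Label

/-! The label function with upward values. `A` is the set of exits, the labels are `al v`, `v ∈ A`.
The letters are the finite chains `ρ` of labels; the letter `ρ` acts by
`y ↦ be y ∨ max (ρ ∩ {al a : a < y})` on the elements `y` outside `A`, and it starts
with `s ∨ max ρ`. -/

set_option autoImplicit false

universe u

namespace Pool.Agent.Helper83.NX

open Helper80.FX2 (Lt LZ LZ_top sweeps)


/-- A finite chain together with one element has a least upper bound if all pairs have. -/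
lemma exists_lub {P : Type*} [PartialOrder P] (m : P) (ρ : Finset P)
    (hc : IsChain (· ≤ ·) (ρ : Set P)) (h : ∀ g ∈ ρ, ∃ z : P, IsLUB ({m, g} : Set P) z) :
    ∃ z : P, IsLUB (insert m (ρ : Set P)) z := by
  rcases ρ.eq_empty_or_nonempty with rfl | hne
  · refine ⟨m, ?_⟩
    simp
  · obtain ⟨g, hg, hgm⟩ := ρ.exists_maximal hne
    have hgr : ∀ x ∈ ρ, x ≤ g := by
      intro x hx
      rcases hc.total hg hx with h' | h'
      · exact hgm hx h'
      · exact h'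
    obtain ⟨z, hz⟩ := h g hg
    refine ⟨z, ?_, ?_⟩
    · intro x hx
      rcases Set.mem_insert_iff.1 hx with rfl | hx
      · exact hz.1 (by simp)
      · exact (hgr x (Finset.mem_coe.1 hx)).trans (hz.1 (by simp))
    · intro w hw
      refine hz.2 ?_
      rintro x (rfl | rfl)
      · exact hw (by simp)
      · exact hw (Set.mem_insert_of_mem _ (Finset.mem_coe.2 hg))

/-- The label function, upward values. -/
theorem exists_label_N (P : Type u) [PartialOrder P]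
    (hfin : ∃ n : ℕ, ∀ c : Finset P, IsChain (· ≤ ·) (c : Set P) → c.card ≤ n) (s : P)
    (f : P → P) (hf : Monotone f) (A : Set P) (al be : P → P)
    (hA1 : ∀ x ∈ A, f x ≤ al x) (hA2 : ∀ x ∈ A, ∀ y ∈ A, x ≤ y → al x ≤ al y)
    (hA3 : ∀ x ∈ A, ∃ z : P, IsLUB ({s, al x} : Set P) z)
    (hW1 : ∀ y, y ∉ A → be y ≤ s) (hW2 : ∀ y, y ∉ A → be y ≤ f y)
    (hW3 : ∀ x, x ∉ A → ∀ y, y ∉ A → x ≤ y → be x ≤ be y)
    (hj1 : ∀ x ∈ A, ∀ y, y ∉ A → x < y → al x ≤ f y)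
    (hj2 : ∀ x ∈ A, ∀ y, y ∉ A → x < y → be y < s → ∃ z : P, IsLUB ({be y, al x} : Set P) z)
    (hno : ¬ ∃ x : P, f x = x) :
    ∃ (r : ℕ) (lam : (Fin r → Lt P) → P),
      (∀ δ, Helper31.FX.Rel δ δ → (∀ j, δ j ∈ LZ (al '' A)) → lam δ ∈ al '' A) ∧
      (∀ δ δ', Helper31.FX.Rel δ δ' → Helper31.FX.Rel δ δ → Helper31.FX.Rel δ' δ' → (∀ j, δ j ∈ LZ (al '' A)) →
        (∀ j, δ' j ∈ LZ (al '' A)) → lam δ ≤ lam δ' ∨ lam δ' ≤ lam δ) ∧
      ∀ δ, Helper31.FX.Rel δ δ → (∀ j, δ j ∈ LZ (al '' A)) →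
        ∀ x, (∀ j, x ∈ (OrderDual.ofDual (δ j) : Finset P)) → lam δ ≠ x := by
  classical
  obtain ⟨n, hn⟩ := hfin
  have nle : ∀ x, ¬ x ≤ f x := fun x hx => hno (Helper31.FX.fix_of_le n hn f hf x hx)
  have nge : ∀ x, ¬ f x ≤ x := fun x hx => hno (Helper31.FX.fix_of_ge n hn f hf x hx)
  set E : Set P := al '' A with hEdef
  -- the set of the elements outside `A`
  let W : Set P := {x | x ∉ A}
  -- values below `y`
  let Val : P → P → Prop := fun y e => ∃ a ∈ A, a < y ∧ al a = e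
  have hVal : ∀ x x', x ≤ x' → ∀ e, Val x e → Val x' e := by
    rintro x x' h e ⟨a, h1, h2, h3⟩
    exact ⟨a, h1, lt_of_lt_of_le h2 h, h3⟩
  -- joins, with junk value
  let jo : P → Finset P → P := fun m ρ =>
    if h : ∃ z : P, IsLUB (insert m (ρ : Set P)) z then h.choose else m
  let fi : Lt P → P → Finset P := fun ρ y => (OrderDual.ofDual ρ : Finset P).filter (Val y)
  have hfi : ∀ ρ y x, x ∈ fi ρ y ↔ x ∈ (OrderDual.ofDual ρ : Finset P) ∧ Val y x := by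
    intro ρ y x
    simp only [fi, Finset.mem_filter]
  have hch : ∀ ρ ∈ LZ E, ∀ y, IsChain (· ≤ ·) ((fi ρ y : Finset P) : Set P) :=
    fun ρ hρ y => hρ.2.mono (Finset.coe_subset.2 (Finset.filter_subset _ _))
  have hK0 : ∀ ρ ∈ LZ E, ∀ y ∈ W, IsLUB (insert (be y) (fi ρ y : Set P)) (jo (be y) (fi ρ y)) := by
    intro ρ hρ y hy
    have h : ∃ z : P, IsLUB (insert (be y) (fi ρ y : Set P)) z := by
      refine exists_lub _ _ (hch ρ hρ y) ?_
      intro g hg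
      obtain ⟨-, a, haB, hay, rfl⟩ := (hfi ρ y g).1 hg
      rcases (hW1 y hy).eq_or_lt with h | h
      · rw [h]
        exact hA3 a haB
      · exact hj2 a haB y hy hay h
    simp only [jo, dif_pos h]
    exact h.choose_spec
  have hst0 : ∀ ρ ∈ LZ E, IsLUB (insert s ((OrderDual.ofDual ρ : Finset P) : Set P))
      (jo s (OrderDual.ofDual ρ)) := by
    intro ρ hρ
    have h : ∃ z : P, IsLUB (insert s ((OrderDual.ofDual ρ : Finset P) : Set P)) z := by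
      refine exists_lub _ _ hρ.2 ?_
      intro g hg
      obtain ⟨a, haA, rfl⟩ := hρ.1 (Finset.mem_coe.2 hg)
      exact hA3 a haA
    simp only [jo, dif_pos h]
    exact h.choose_spec
  let K : Lt P → Pᵒᵈ → Pᵒᵈ := fun ρ y =>
    OrderDual.toDual (jo (be (OrderDual.ofDual y)) (fi ρ (OrderDual.ofDual y)))
  let st : Lt P → Pᵒᵈ := fun ρ => OrderDual.toDual (jo s (OrderDual.ofDual ρ))
  let A' : Set Pᵒᵈ := {y | OrderDual.ofDual y ∈ W}
  have hKle : ∀ ρ ∈ LZ E, ∀ y ∈ W, jo (be y) (fi ρ y) ≤ f y := by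
    intro ρ hρ y hy
    refine (hK0 ρ hρ y hy).2 ?_
    intro x hx
    rcases Set.mem_insert_iff.1 hx with rfl | hx
    · exact hW2 y hy
    · obtain ⟨-, a, haA, hay, rfl⟩ := (hfi ρ y x).1 (Finset.mem_coe.1 hx)
      exact hj1 a haA y hy hay
  have hn' : ∀ c : Finset Pᵒᵈ, IsChain (· ≤ ·) (c : Set Pᵒᵈ) → c.card ≤ n := fun c hc =>
    hn c (by
      intro a ha b hb hab
      exact (hc ha hb hab).symm)
  have htop : ∀ ρ ∈ LZ E, ρ ≤ (OrderDual.toDual (∅ : Finset P) : Lt P) := by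
    intro ρ _
    show (∅ : Finset P) ⊆ OrderDual.ofDual ρ
    exact Finset.empty_subset _
  have hst : ∀ ρ ∈ LZ E, ∀ ρ' ∈ LZ E, ρ ≤ ρ' → st ρ ≤ st ρ' := by
    intro ρ hρ ρ' hρ' h
    show jo s (OrderDual.ofDual ρ') ≤ jo s (OrderDual.ofDual ρ)
    refine (hst0 ρ' hρ').2 ?_
    intro x hx
    rcases Set.mem_insert_iff.1 hx with rfl | hx
    · exact (hst0 ρ hρ).1 (Set.mem_insert _ _)
    · exact (hst0 ρ hρ).1 (Set.mem_insert_of_mem _ (Finset.mem_coe.2 (h (Finset.mem_coe.1 hx))))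
  have hK : ∀ ρ ∈ LZ E, ∀ ρ' ∈ LZ E, ∀ x ∈ A', ∀ x' ∈ A', ρ ≤ ρ' → x ≤ x' →
      K ρ x ≤ K ρ' x' := by
    intro ρ hρ ρ' hρ' x hx x' hx' h hxx
    show jo (be (OrderDual.ofDual x')) (fi ρ' (OrderDual.ofDual x')) ≤
      jo (be (OrderDual.ofDual x)) (fi ρ (OrderDual.ofDual x))
    refine (hK0 ρ' hρ' _ hx').2 ?_
    intro y hy
    rcases Set.mem_insert_iff.1 hy with rfl | hy
    · exact (hW3 _ hx' _ hx hxx).trans ((hK0 ρ hρ _ hx).1 (Set.mem_insert _ _))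
    · refine (hK0 ρ hρ _ hx).1 (Set.mem_insert_of_mem _ (Finset.mem_coe.2 ?_))
      obtain ⟨h1, h2⟩ := (hfi ρ' _ y).1 (Finset.mem_coe.1 hy)
      exact (hfi ρ _ y).2 ⟨h h1, hVal _ _ hxx y h2⟩
  have hd : ∀ ρ ∈ LZ E, ∀ x ∈ A', st ρ ≤ K ρ x := by
    intro ρ hρ x hx
    show jo (be (OrderDual.ofDual x)) (fi ρ (OrderDual.ofDual x)) ≤ jo s (OrderDual.ofDual ρ)
    refine (hK0 ρ hρ _ hx).2 ?_
    intro y hy
    rcases Set.mem_insert_iff.1 hy with rfl | hy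
    · exact (hW1 _ hx).trans ((hst0 ρ hρ).1 (Set.mem_insert _ _))
    · refine (hst0 ρ hρ).1 (Set.mem_insert_of_mem _ (Finset.mem_coe.2 ?_))
      exact ((hfi ρ _ y).1 (Finset.mem_coe.1 hy)).1
  have hKx : ∀ ρ ∈ LZ E, ∀ x ∈ A', ¬ K ρ x ≤ x := by
    intro ρ hρ x hx h
    exact nle (OrderDual.ofDual x) (le_trans (show OrderDual.ofDual x ≤
      jo (be (OrderDual.ofDual x)) (fi ρ (OrderDual.ofDual x)) from h) (hKle ρ hρ _ hx))
  obtain ⟨v, hv1, hv2⟩ := sweeps (P := Pᵒᵈ) n hn' (OrderDual.toDual (∅ : Finset P) : Lt P) A'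
    (LZ E) (LZ_top E) htop st K hst hK hd hKx
  have hvA : ∀ δ, Helper31.FX.Rel δ δ → (∀ j, δ j ∈ LZ E) → OrderDual.ofDual (v δ) ∈ A := by
    intro δ hδ hδZ
    by_contra hcon
    exact (hv1 δ hδ hδZ).1 hcon
  refine ⟨n, fun δ => al (OrderDual.ofDual (v δ)), ?_, ?_, ?_⟩
  · intro δ hδ hδZ
    exact ⟨_, hvA δ hδ hδZ, rfl⟩
  · intro δ δ' hr h1 h2 hz1 hz2
    rcases hv2 δ δ' hr h1 h2 hz1 hz2 with h | h
    · exact Or.inr (hA2 _ (hvA δ' h2 hz2) _ (hvA δ h1 hz1) h)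
    · exact Or.inl (hA2 _ (hvA δ h1 hz1) _ (hvA δ' h2 hz2) h)
  · intro δ hδ hδZ x hx hcon
    obtain ⟨-, j, hj'⟩ := hv1 δ hδ hδZ
    have hvB := hvA δ hδ hδZ
    have hin : al (OrderDual.ofDual (v δ)) ∈ (OrderDual.ofDual (δ j) : Finset P) := by
      rw [show al (OrderDual.ofDual (v δ)) = x from hcon]
      exact hx j
    apply nge (OrderDual.ofDual (v δ))
    refine (hA1 _ hvB).trans ?_
    rcases hj' with e1 | ⟨z, hz, hzv, e1⟩
    · have h1 : al (OrderDual.ofDual (v δ)) ≤ jo s (OrderDual.ofDual (δ j)) :=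
        (hst0 _ (hδZ j)).1 (Set.mem_insert_of_mem _ (Finset.mem_coe.2 hin))
      have h2 : OrderDual.ofDual (v δ) = jo s (OrderDual.ofDual (δ j)) := e1
      exact h1.trans h2.ge
    · have hzlt : OrderDual.ofDual (v δ) < OrderDual.ofDual z := by
        refine lt_of_le_of_ne hzv ?_
        intro e'
        apply hz
        rw [← e']
        exact hvB
      have h1 : al (OrderDual.ofDual (v δ)) ≤
          jo (be (OrderDual.ofDual z)) (fi (δ j) (OrderDual.ofDual z)) := by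
        refine (hK0 _ (hδZ j) _ hz).1 (Set.mem_insert_of_mem _ (Finset.mem_coe.2 ?_))
        exact (hfi _ _ _).2 ⟨hin, OrderDual.ofDual (v δ), hvB, hzlt, rfl⟩
      have h2 : OrderDual.ofDual (v δ) =
          jo (be (OrderDual.ofDual z)) (fi (δ j) (OrderDual.ofDual z)) := e1
      exact h1.trans h2.ge

end Pool.Agent.Helper83.NX
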