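import Pool.Agent.Helper9.FX.Cover2
import Pool.Agent.Helper83.NX.Graph

/-! There is no label function if `E` is tame. -/

set_option autoImplicit false

universe u

namespace Pool.Agent.Helper83.NX

open Helper31.FX (HasBoundedRay IsCover CoverTame bray_withTop)
open Helper80.FX2 (Lt LZ LZ_top le_top' no_labelling_bray)


/-- helper9's `no_labelling_cover` without an upper bound of `E`. -/
theorem no_labelling_cover {P X : Type*} [PartialOrder P] [PartialOrder X] (r : ℕ)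
    (E : Set P) (lam : (Fin r → Lt P) → P)
    (h1 : ∀ δ, Helper31.FX.Rel δ δ → (∀ j, δ j ∈ LZ E) → lam δ ∈ E)
    (h2 : ∀ δ δ', Helper31.FX.Rel δ δ' → Helper31.FX.Rel δ δ → Helper31.FX.Rel δ' δ' → (∀ j, δ j ∈ LZ E) →
      (∀ j, δ' j ∈ LZ E) → lam δ ≤ lam δ' ∨ lam δ' ≤ lam δ)
    (h3 : ∀ δ, Helper31.FX.Rel δ δ → (∀ j, δ j ∈ LZ E) →
      ∀ x, (∀ j, x ∈ (OrderDual.ofDual (δ j) : Finset P)) → lam δ ≠ x)
    (q : X → P) (hq : IsCover q E) (hray : ¬ HasBoundedRay (Set.univ : Set X)) : False := by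
  classical
  let s : P := lam (fun _ => OrderDual.toDual (∅ : Finset P))
  obtain ⟨lamX, k1, k2⟩ := Helper31.FX.Lft.exists_lift hq r
    (OrderDual.toDual (∅ : Finset P) : Lt P) (LZ E) (LZ_top E) (fun v _ => le_top' v) lam h1 h2
  let q' : WithTop X → P := fun y => WithTop.recTopCoe s q y
  have qc : ∀ x : X, q' (x : WithTop X) = q x := fun _ => rfl
  let pr : Lt (WithTop X) → Lt P := fun ρ => OrderDual.toDual ((OrderDual.ofDual ρ).image q')
  have prmem : ∀ ρ (x : WithTop X), x ∈ (OrderDual.ofDual ρ : Finset (WithTop X)) →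
      q' x ∈ (OrderDual.ofDual (pr ρ) : Finset P) := fun ρ x hx => Finset.mem_image_of_mem q' hx
  have prmono : ∀ ρ ρ', ρ ≤ ρ' → pr ρ ≤ pr ρ' := by
    intro ρ ρ' h
    exact Finset.image_subset_image h
  have prZ : ∀ ρ, ρ ∈ LZ (Set.range ((↑) : X → WithTop X)) → pr ρ ∈ LZ E := by
    rintro ρ ⟨hρ1, hρ2⟩
    have hsub : ∀ y, y ∈ (OrderDual.ofDual (pr ρ) : Finset P) →
        ∃ x : X, (x : WithTop X) ∈ (OrderDual.ofDual ρ : Finset (WithTop X)) ∧ q x = y := by
      intro y hy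
      obtain ⟨z, hz, hzy⟩ := Finset.mem_image.1 hy
      obtain ⟨x, rfl⟩ := hρ1 (Finset.mem_coe.2 hz)
      exact ⟨x, hz, hzy⟩
    constructor
    · intro y hy
      obtain ⟨x, -, rfl⟩ := hsub y (Finset.mem_coe.1 hy)
      exact hq.mem x
    · intro y hy z hz _
      obtain ⟨x, hx, rfl⟩ := hsub y (Finset.mem_coe.1 hy)
      obtain ⟨w, hw, rfl⟩ := hsub z (Finset.mem_coe.1 hz)
      rcases hρ2.total (Finset.mem_coe.2 hx) (Finset.mem_coe.2 hw) with h | h
      · exact Or.inl (hq.mono _ _ (WithTop.coe_le_coe.1 h))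
      · exact Or.inr (hq.mono _ _ (WithTop.coe_le_coe.1 h))
  have prrel : ∀ δ δ' : Fin r → Lt (WithTop X), Helper31.FX.Rel δ δ' →
      Helper31.FX.Rel (fun j => pr (δ j)) (fun j => pr (δ' j)) := fun δ δ' h =>
    ⟨fun j => prmono _ _ (h.1 j), fun j k hjk => prmono _ _ (h.2 j k hjk)⟩
  refine no_labelling_bray (P := WithTop X) r ⊤ (Set.range ((↑) : X → WithTop X)) ?_
    (fun δ => ((lamX (fun j => pr (δ j)) : X) : WithTop X)) ?_ ?_ ?_
    (fun h => hray (bray_withTop h))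
  · rintro _ ⟨x, rfl⟩
    exact WithTop.coe_lt_top x
  · intro δ _ _
    exact ⟨_, rfl⟩
  · intro δ δ' h hr hr' hz hz'
    rw [WithTop.coe_le_coe, WithTop.coe_le_coe]
    exact k2 _ _ (prrel _ _ h) (prrel _ _ hr) (prrel _ _ hr') (fun j => prZ _ (hz j))
      (fun j => prZ _ (hz' j))
  · intro δ hr hz x hx hcon
    have h4 := k1 (fun j => pr (δ j)) (prrel _ _ hr) (fun j => prZ _ (hz j))
    refine h3 (fun j => pr (δ j)) (prrel _ _ hr) (fun j => prZ _ (hz j)) (q' x)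
      (fun j => prmem _ _ (hx j)) ?_
    rw [← h4, ← hcon]
    exact (qc _).symm

/-- No label function if `E` has no chain of three elements. -/
theorem no_labelling_thin {P : Type*} [PartialOrder P] (r : ℕ)
    (E : Set P) (lam : (Fin r → Lt P) → P)
    (h1 : ∀ δ, Helper31.FX.Rel δ δ → (∀ j, δ j ∈ LZ E) → lam δ ∈ E)
    (h2 : ∀ δ δ', Helper31.FX.Rel δ δ' → Helper31.FX.Rel δ δ → Helper31.FX.Rel δ' δ' → (∀ j, δ j ∈ LZ E) →
      (∀ j, δ' j ∈ LZ E) → lam δ ≤ lam δ' ∨ lam δ' ≤ lam δ)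
    (h3 : ∀ δ, Helper31.FX.Rel δ δ → (∀ j, δ j ∈ LZ E) →
      ∀ x, (∀ j, x ∈ (OrderDual.ofDual (δ j) : Finset P)) → lam δ ≠ x)
    (hthin : ∀ a ∈ E, ∀ b ∈ E, ∀ c ∈ E, a < b → ¬ b < c) : False := by
  classical
  let D := {x // x ∈ E}
  let Q := {ρ : Lt P // ρ ∈ LZ E}
  let _ : OrderTop Q :=
    { top := ⟨OrderDual.toDual (∅ : Finset P), LZ_top E⟩
      le_top := fun ρ => le_top' ρ.1 }
  -- the label function on sequences
  have hrel : ∀ δ δ' : ℕ → Q, V r δ → V r δ' → (∀ j, δ j ≤ δ' j) → (∀ j, δ' j ≤ δ (j + 1)) →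
      Helper31.FX.Rel (fun j : Fin r => (δ j).1) (fun j : Fin r => (δ' j).1) := by
    intro δ δ' h h' h3 h4
    refine ⟨fun j => h3 j, fun j k hjk => ?_⟩
    exact (h4 j).trans (h.1 (show (j : ℕ) + 1 ≤ k from hjk))
  have hself : ∀ δ : ℕ → Q, V r δ →
      Helper31.FX.Rel (fun j : Fin r => (δ j).1) (fun j : Fin r => (δ j).1) := fun δ h =>
    hrel δ δ h h (fun _ => le_rfl) (fun j => h.1 (Nat.le_succ j))
  have hz : ∀ δ : ℕ → Q, ∀ j : Fin r, (δ j).1 ∈ LZ E := fun δ j => (δ j).2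
  have hVtop : V r (fun _ => (⊤ : Q)) := ⟨fun _ _ _ => le_rfl, fun _ _ => rfl⟩
  let lamQ : (ℕ → Q) → D := fun δ =>
    if h : V r δ then ⟨lam (fun j => (δ j).1), h1 _ (hself δ h) (hz δ)⟩
    else ⟨lam (fun _ => (⊤ : Q).1), h1 _ (hself _ hVtop) (hz (fun _ => (⊤ : Q)))⟩
  have hlam : ∀ δ : ℕ → Q, V r δ → ((lamQ δ : D) : P) = lam (fun j => (δ j).1) := by
    intro δ h
    simp only [lamQ, dif_pos h]
  let mem : D → Q → Prop := fun a ρ => (a : P) ∈ (OrderDual.ofDual ρ.1 : Finset P)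
  let q1 : D → Q := fun a => ⟨OrderDual.toDual ({(a : P)} : Finset P), by
    refine ⟨?_, ?_⟩
    · intro x hx
      have : x = (a : P) := by simpa using hx
      rw [this]
      exact a.2
    · show IsChain (· ≤ ·) ((({(a : P)} : Finset P)) : Set P)
      rw [Finset.coe_singleton]
      exact Set.subsingleton_singleton.isChain⟩
  have hpair : ∀ a b : D, Helper44.GB.Cp a b →
      (OrderDual.toDual ({(a : P), (b : P)} : Finset P) : Lt P) ∈ LZ E := by
    intro a b hab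
    refine ⟨?_, ?_⟩
    · intro x hx
      have : x = (a : P) ∨ x = (b : P) := by simpa using hx
      rcases this with rfl | rfl
      · exact a.2
      · exact b.2
    · show IsChain (· ≤ ·) ((({(a : P), (b : P)} : Finset P)) : Set P)
      intro x hx y hy _
      have hx' : x = (a : P) ∨ x = (b : P) := by simpa using hx
      have hy' : y = (a : P) ∨ y = (b : P) := by simpa using hy
      have hab' : (a : P) ≤ b ∨ (b : P) ≤ a := by
        rcases hab with h | h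
        · exact Or.inl h.le
        · exact Or.inr h.le
      rcases hx' with rfl | rfl <;> rcases hy' with rfl | rfl
      · exact Or.inl le_rfl
      · exact hab'
      · exact hab'.symm
      · exact Or.inl le_rfl
  let q2 : D → D → Q := fun a b =>
    if h : Helper44.GB.Cp a b then ⟨OrderDual.toDual ({(a : P), (b : P)} : Finset P), hpair a b h⟩
    else ⊤
  have hthin' : ∀ a b c : D, a < b → b < c → False := fun a b c hab hbc =>
    hthin a a.2 b b.2 c c.2 hab hbc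
  refine no_labelling (r := r) (lam := lamQ) ?_ hthin' mem q1 q2 ?_ ?_ ?_
  · intro δ δ' h h' h3 h4
    have := h2 _ _ (hrel δ δ' h h' h3 h4) (hself δ h) (hself δ' h') (hz δ) (hz δ')
    rw [← hlam δ h, ← hlam δ' h'] at this
    exact this
  · intro a
    show (a : P) ∈ ({(a : P)} : Finset P)
    simp
  · intro a b hab
    have e : q2 a b = ⟨OrderDual.toDual ({(a : P), (b : P)} : Finset P), hpair a b hab⟩ := by
      simp only [q2, dif_pos hab]
    rw [e]
    refine ⟨?_, ?_, ?_, ?_⟩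
    · show ({(a : P)} : Finset P) ⊆ {(a : P), (b : P)}
      simp
    · show ({(b : P)} : Finset P) ⊆ {(a : P), (b : P)}
      simp
    · show (a : P) ∈ ({(a : P), (b : P)} : Finset P)
      simp
    · show (b : P) ∈ ({(a : P), (b : P)} : Finset P)
      simp
  · intro δ h d hd hcon
    refine h3 _ (hself δ h) (hz δ) d (fun j => hd j j.2) ?_
    rw [← hlam δ h, hcon]

/-- **No label function if `E` is tame.** -/
theorem no_labelling_tame {P : Type u} [PartialOrder P] (r : ℕ)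
    (E : Set P) (lam : (Fin r → Lt P) → P)
    (h1 : ∀ δ, Helper31.FX.Rel δ δ → (∀ j, δ j ∈ LZ E) → lam δ ∈ E)
    (h2 : ∀ δ δ', Helper31.FX.Rel δ δ' → Helper31.FX.Rel δ δ → Helper31.FX.Rel δ' δ' → (∀ j, δ j ∈ LZ E) →
      (∀ j, δ' j ∈ LZ E) → lam δ ≤ lam δ' ∨ lam δ' ≤ lam δ)
    (h3 : ∀ δ, Helper31.FX.Rel δ δ → (∀ j, δ j ∈ LZ E) →
      ∀ x, (∀ j, x ∈ (OrderDual.ofDual (δ j) : Finset P)) → lam δ ≠ x)
    (ht : Helper9.FX.Tame E) : False := by
  rcases ht with ⟨X, hX, q, hq, hr⟩ | h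
  · exact no_labelling_cover r E lam h1 h2 h3 q hq hr
  · exact no_labelling_thin r E lam h1 h2 h3 h

end Pool.Agent.Helper83.NX
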