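import Pool.Agent.Helper83.NX.LabelN
import Pool.Agent.Helper83.NX.Tame
import Pool.Agent.Helper98.HX.CoverThick

/-! Fixed point theorems for posets of finite length: the values of `f` without meet with `s`
form a tame set. -/

set_option autoImplicit false

universe u

namespace Pool.Agent.Helper83.NX

open Helper31.FX (CoverTame)

/-- **General theorem.** `A` is the set of exits, `al` the label function on `A`. -/
theorem main_general (P : Type u) [PartialOrder P]
    (hfin : ∃ n : ℕ, ∀ c : Finset P, IsChain (· ≤ ·) (c : Set P) → c.card ≤ n) (s : P)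
    (f : P → P) (hf : Monotone f) (A : Set P) (al be : P → P)
    (hA1 : ∀ x ∈ A, f x ≤ al x) (hA2 : ∀ x ∈ A, ∀ y ∈ A, x ≤ y → al x ≤ al y)
    (hA3 : ∀ x ∈ A, ∃ z : P, IsLUB ({s, al x} : Set P) z)
    (hW1 : ∀ y, y ∉ A → be y ≤ s) (hW2 : ∀ y, y ∉ A → be y ≤ f y)
    (hW3 : ∀ x, x ∉ A → ∀ y, y ∉ A → x ≤ y → be x ≤ be y)
    (hj1 : ∀ x ∈ A, ∀ y, y ∉ A → x < y → al x ≤ f y)
    (hj2 : ∀ x ∈ A, ∀ y, y ∉ A → x < y → be y < s → ∃ z : P, IsLUB ({be y, al x} : Set P) z)
    (ht : CoverTame (al '' A)) : ∃ x : P, f x = x := by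
  by_contra hno
  obtain ⟨r, lam, h1, h2, h3⟩ :=
    exists_label_N P hfin s f hf A al be hA1 hA2 hA3 hW1 hW2 hW3 hj1 hj2 hno
  exact no_labelling_tame r (al '' A) lam h1 h2 h3 (Or.inl ht)

/-- **Coloured version at the values of `f`**: `B` is the set of values which are joined
with `s`. -/
theorem main_N (P : Type u) [PartialOrder P]
    (hfin : ∃ n : ℕ, ∀ c : Finset P, IsChain (· ≤ ·) (c : Set P) → c.card ≤ n) (s : P)
    (f : P → P) (hf : Monotone f) (B : Set P)
    (hB1 : ∀ x, f x ∈ B → ∃ z : P, IsLUB ({s, f x} : Set P) z)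
    (hB2 : ∀ x, f x ∉ B → ∃ z : P, IsGLB ({s, f x} : Set P) z)
    (hj : ∀ x y m : P, x < y → f x ∈ B → f y ∉ B → IsGLB ({s, f y} : Set P) m → m < s →
      ∃ z : P, IsLUB ({m, f x} : Set P) z)
    (ht : CoverTame {y | y ∈ B ∧ ∃ x, f x = y}) : ∃ x : P, f x = x := by
  classical
  let be : P → P := fun x => if h : ∃ z : P, IsGLB ({s, f x} : Set P) z then h.choose else s
  have hbe : ∀ x, f x ∉ B → IsGLB ({s, f x} : Set P) (be x) := by
    intro x hx
    have h := hB2 x hx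
    simp only [be, dif_pos h]
    exact h.choose_spec
  have himg : f '' {x | f x ∈ B} = {y | y ∈ B ∧ ∃ x, f x = y} := by
    ext y
    constructor
    · rintro ⟨x, hx, rfl⟩
      exact ⟨hx, x, rfl⟩
    · rintro ⟨hy, x, rfl⟩
      exact ⟨x, hy, rfl⟩
  refine main_general P hfin s f hf {x | f x ∈ B} f be (fun x _ => le_rfl)
    (fun x _ y _ h => hf h) (fun x hx => hB1 x hx) (fun y hy => (hbe y hy).1 (by simp))
    (fun y hy => (hbe y hy).1 (by simp)) ?_ (fun x _ y _ h => hf h.le)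
    (fun x hx y hy h hm => hj x y (be y) h hx hy (hbe y hy) hm) (himg ▸ ht)
  intro x hx y hy hxy
  refine (hbe y hy).2 ?_
  rintro z (rfl | rfl)
  · exact (hbe x hx).1 (by simp)
  · exact ((hbe x hx).1 (by simp)).trans (hf hxy)

/-- The order dual of `main_N`. -/
theorem main_N_dual (P : Type u) [PartialOrder P]
    (hfin : ∃ n : ℕ, ∀ c : Finset P, IsChain (· ≤ ·) (c : Set P) → c.card ≤ n) (s : P)
    (f : P → P) (hf : Monotone f) (B : Set P)
    (hB1 : ∀ x, f x ∈ B → ∃ z : P, IsGLB ({s, f x} : Set P) z)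
    (hB2 : ∀ x, f x ∉ B → ∃ z : P, IsLUB ({s, f x} : Set P) z)
    (hj : ∀ x y m : P, y < x → f x ∈ B → f y ∉ B → IsLUB ({s, f y} : Set P) m → s < m →
      ∃ z : P, IsGLB ({m, f x} : Set P) z)
    (ht : CoverTame {y | y ∈ B ∧ ∃ x, f x = y}) : ∃ x : P, f x = x := by
  obtain ⟨n, hn⟩ := hfin
  have key := main_N Pᵒᵈ ⟨n, fun c hc => hn c (by
    intro a ha b hb hab
    exact (hc ha hb hab).symm)⟩ (OrderDual.toDual s)
    (fun x => OrderDual.toDual (f (OrderDual.ofDual x))) (fun a b hab => hf hab)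
    (OrderDual.ofDual ⁻¹' B)
    (fun x hx => hB1 (OrderDual.ofDual x) hx) (fun x hx => hB2 (OrderDual.ofDual x) hx)
    (fun x y m h1 h2 h3 h4 h5 =>
      hj (OrderDual.ofDual x) (OrderDual.ofDual y) (OrderDual.ofDual m) h1 h2 h3 h4 h5)
    (Helper31.FX.coverTame_dual _ ht)
  exact key

/-- **Special elements.** Conditions (i) and (ii) of the problem, at the values of `f`. -/
theorem main_special_N (P : Type u) [PartialOrder P]
    (hfin : ∃ n : ℕ, ∀ c : Finset P, IsChain (· ≤ ·) (c : Set P) → c.card ≤ n) (s : P)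
    (f : P → P) (hf : Monotone f)
    (hi : ∀ x : P, (∃ z : P, IsLUB ({s, f x} : Set P) z) ∨ (∃ z : P, IsGLB ({s, f x} : Set P) z))
    (hii : ∀ x y m : P, x < y → (¬ ∃ z : P, IsGLB ({s, f x} : Set P) z) →
      IsGLB ({s, f y} : Set P) m → m < s → ∃ z : P, IsLUB ({m, f x} : Set P) z)
    (ht : CoverTame {y : P | (∃ x, f x = y) ∧ ¬ ∃ z : P, IsGLB ({s, y} : Set P) z}) :
    ∃ x : P, f x = x := by
  refine main_N P hfin s f hf {y | ¬ ∃ z : P, IsGLB ({s, y} : Set P) z} ?_ ?_ ?_ ?_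
  · intro x hx
    exact (hi x).resolve_right hx
  · intro x hx
    by_contra h
    exact hx h
  · intro x y m hxy hx _ hm hms
    exact hii x y m hxy hx hm hms
  · have : {y : P | y ∈ {y | ¬ ∃ z : P, IsGLB ({s, y} : Set P) z} ∧ ∃ x, f x = y} =
        {y : P | (∃ x, f x = y) ∧ ¬ ∃ z : P, IsGLB ({s, y} : Set P) z} := by
      ext y
      exact and_comm
    rw [this]
    exact ht

/-- The order dual of `main_special_N`. -/
theorem main_special_N_dual (P : Type u) [PartialOrder P]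
    (hfin : ∃ n : ℕ, ∀ c : Finset P, IsChain (· ≤ ·) (c : Set P) → c.card ≤ n) (s : P)
    (f : P → P) (hf : Monotone f)
    (hi : ∀ x : P, (∃ z : P, IsLUB ({s, f x} : Set P) z) ∨ (∃ z : P, IsGLB ({s, f x} : Set P) z))
    (hii : ∀ x y m : P, y < x → (¬ ∃ z : P, IsLUB ({s, f x} : Set P) z) →
      IsLUB ({s, f y} : Set P) m → s < m → ∃ z : P, IsGLB ({m, f x} : Set P) z)
    (ht : CoverTame {y : P | (∃ x, f x = y) ∧ ¬ ∃ z : P, IsLUB ({s, y} : Set P) z}) :
    ∃ x : P, f x = x := by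
  refine main_N_dual P hfin s f hf {y | ¬ ∃ z : P, IsLUB ({s, y} : Set P) z} ?_ ?_ ?_ ?_
  · intro x hx
    exact (hi x).resolve_left hx
  · intro x hx
    by_contra h
    exact hx h
  · intro x y m hxy hx _ hm hms
    exact hii x y m hxy hx hm hms
  · have : {y : P | y ∈ {y | ¬ ∃ z : P, IsLUB ({s, y} : Set P) z} ∧ ∃ x, f x = y} =
        {y : P | (∃ x, f x = y) ∧ ¬ ∃ z : P, IsLUB ({s, y} : Set P) z} := by
      ext y
      exact and_comm
    rw [this]
    exact ht

end Pool.Agent.Helper83.NX
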