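import Pool.Agent.Helper83.NX.Main

/-! Only the values without meet with `s` which come from below a value without join with `s`
matter: `f` is replaced by `s ∨ f x` where all values above have joins with `s`. -/

set_option autoImplicit false

universe u

namespace Pool.Agent.Helper83.NX

open Helper31.FX (CoverTame)

/-- **Special elements, second form.** -/
theorem main_critical (P : Type u) [PartialOrder P]
    (hfin : ∃ n : ℕ, ∀ c : Finset P, IsChain (· ≤ ·) (c : Set P) → c.card ≤ n) (s : P)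
    (f : P → P) (hf : Monotone f)
    (hi : ∀ x : P, (∃ z : P, IsLUB ({s, f x} : Set P) z) ∨ (∃ z : P, IsGLB ({s, f x} : Set P) z))
    (hii : ∀ x y w m : P, x < y → y ≤ w → (¬ ∃ z : P, IsGLB ({s, f x} : Set P) z) →
      (¬ ∃ z : P, IsLUB ({s, f w} : Set P) z) → IsGLB ({s, f y} : Set P) m → m < s →
      ∃ z : P, IsLUB ({m, f x} : Set P) z)
    (ht : CoverTame {y : P | ∃ x w, x ≤ w ∧ f x = y ∧ (¬ ∃ z : P, IsGLB ({s, f x} : Set P) z) ∧
      ¬ ∃ z : P, IsLUB ({s, f w} : Set P) z}) :
    ∃ x : P, f x = x := by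
  classical
  -- the set where all values above have joins with `s`
  let U : Set P := {x | ∀ w, x ≤ w → ∃ z : P, IsLUB ({s, f w} : Set P) z}
  let g : P → P := fun x =>
    if h : x ∈ U then (h x le_rfl).choose else f x
  have hgU : ∀ x ∈ U, IsLUB ({s, f x} : Set P) (g x) := by
    intro x hx
    simp only [g, dif_pos hx]
    exact (hx x le_rfl).choose_spec
  have hgf : ∀ x, x ∉ U → g x = f x := by
    intro x hx
    simp only [g, dif_neg hx]
  have hfg : ∀ x, f x ≤ g x := by
    intro x
    by_cases hx : x ∈ U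
    · exact (hgU x hx).1 (by simp)
    · exact (hgf x hx).ge
  have hUup : ∀ x y, x ≤ y → x ∈ U → y ∈ U := fun x y hxy hx w hw => hx w (hxy.trans hw)
  have hg : Monotone g := by
    intro x y hxy
    by_cases hx : x ∈ U
    · have hy := hUup x y hxy hx
      refine (hgU x hx).2 ?_
      rintro z (rfl | rfl)
      · exact (hgU y hy).1 (by simp)
      · exact (hf hxy).trans (hfg y)
    · rw [hgf x hx]
      exact (hf hxy).trans (hfg y)
  have hsU : ∀ x ∈ U, s ≤ g x := fun x hx => (hgU x hx).1 (by simp)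
  have hmeet : ∀ x ∈ U, IsGLB ({s, g x} : Set P) s := by
    intro x hx
    refine ⟨?_, fun z hz => hz (by simp)⟩
    rintro z (rfl | rfl)
    · exact le_rfl
    · exact hsU x hx
  have key : ∃ x, g x = x := by
    refine main_special_N P hfin s g hg ?_ ?_ ?_
    · intro x
      by_cases hx : x ∈ U
      · exact Or.inr ⟨s, hmeet x hx⟩
      · rw [hgf x hx]
        exact hi x
    · intro x y m hxy hx hm hms
      have hxU : x ∉ U := fun h => hx ⟨s, hmeet x h⟩
      have hyU : y ∉ U := by
        intro h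
        exact hms.ne ((hm.unique (hmeet y h)))
      rw [hgf x hxU] at hx ⊢
      rw [hgf y hyU] at hm
      have : ∃ w, y ≤ w ∧ ¬ ∃ z : P, IsLUB ({s, f w} : Set P) z := by
        by_contra h
        push Not at h
        exact hyU (fun w hw => h w hw)
      obtain ⟨w, hw1, hw2⟩ := this
      exact hii x y w m hxy hw1 hx hw2 hm hms
    · have : {y : P | (∃ x, g x = y) ∧ ¬ ∃ z : P, IsGLB ({s, y} : Set P) z} =
          {y : P | ∃ x w, x ≤ w ∧ f x = y ∧ (¬ ∃ z : P, IsGLB ({s, f x} : Set P) z) ∧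
            ¬ ∃ z : P, IsLUB ({s, f w} : Set P) z} := by
        ext y
        constructor
        · rintro ⟨⟨x, rfl⟩, hx⟩
          have hxU : x ∉ U := fun h => hx ⟨s, hmeet x h⟩
          have : ∃ w, x ≤ w ∧ ¬ ∃ z : P, IsLUB ({s, f w} : Set P) z := by
            by_contra h
            push Not at h
            exact hxU (fun w hw => h w hw)
          obtain ⟨w, hw1, hw2⟩ := this
          rw [hgf x hxU] at hx
          exact ⟨x, w, hw1, (hgf x hxU).symm, hx, hw2⟩
        · rintro ⟨x, w, hxw, rfl, hx, hw⟩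
          have hxU : x ∉ U := fun h => hw (h w hxw)
          exact ⟨⟨x, hgf x hxU⟩, hx⟩
      rw [this]
      exact ht
  obtain ⟨x, hx⟩ := key
  obtain ⟨n, hn⟩ := hfin
  exact Helper31.FX.fix_of_ge n hn f hf x ((hfg x).trans hx.le)

/-- The order dual of `main_critical`. -/
theorem main_critical_dual (P : Type u) [PartialOrder P]
    (hfin : ∃ n : ℕ, ∀ c : Finset P, IsChain (· ≤ ·) (c : Set P) → c.card ≤ n) (s : P)
    (f : P → P) (hf : Monotone f)
    (hi : ∀ x : P, (∃ z : P, IsLUB ({s, f x} : Set P) z) ∨ (∃ z : P, IsGLB ({s, f x} : Set P) z))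
    (hii : ∀ x y w m : P, y < x → w ≤ y → (¬ ∃ z : P, IsLUB ({s, f x} : Set P) z) →
      (¬ ∃ z : P, IsGLB ({s, f w} : Set P) z) → IsLUB ({s, f y} : Set P) m → s < m →
      ∃ z : P, IsGLB ({m, f x} : Set P) z)
    (ht : CoverTame {y : P | ∃ x w, w ≤ x ∧ f x = y ∧ (¬ ∃ z : P, IsLUB ({s, f x} : Set P) z) ∧
      ¬ ∃ z : P, IsGLB ({s, f w} : Set P) z}) :
    ∃ x : P, f x = x := by
  obtain ⟨n, hn⟩ := hfin
  have key := main_critical Pᵒᵈ ⟨n, fun c hc => hn c (by
    intro a ha b hb hab
    exact (hc ha hb hab).symm)⟩ (OrderDual.toDual s)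
    (fun x => OrderDual.toDual (f (OrderDual.ofDual x))) (fun a b hab => hf hab)
    (fun x => (hi (OrderDual.ofDual x)).symm)
    (fun x y w m h1 h2 h3 h4 h5 h6 =>
      hii (OrderDual.ofDual x) (OrderDual.ofDual y) (OrderDual.ofDual w) (OrderDual.ofDual m)
        h1 h2 h3 h4 h5 h6)
    (Helper31.FX.coverTame_dual _ ht)
  exact key

end Pool.Agent.Helper83.NX
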