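import Pool.Agent.Helper83.NX.Main
import Pool.Agent.Helper73.FX.Cover3

/-! Selection form with critical pairs. `A` is a set with `s ∨ f x` existing on `A`, `be` is
monotone off `A`, `be w ≤ s, f w`. A pair `x < w` is critical if `x ∈ A`, `w ∉ A` and `be w < s`. If
the joins `be w ∨ f x` of the critical pairs exist and either the `f x` or the `be w` of the
critical pairs form a tame set then `f` has a fixed point. -/

set_option autoImplicit false

universe u

namespace Pool.Agent.Helper83.NX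

open Helper31.FX (CoverTame coverTame_dual)

/-- **The values `f x` of the critical pairs.** -/
theorem main_sel_N (P : Type u) [PartialOrder P]
    (hfin : ∃ n : ℕ, ∀ c : Finset P, IsChain (· ≤ ·) (c : Set P) → c.card ≤ n) (s : P)
    (f : P → P) (hf : Monotone f)
    (A : Set P) (hA : ∀ x ∈ A, ∃ z : P, IsLUB ({s, f x} : Set P) z)
    (be : P → P) (hbe : ∀ w, w ∉ A → be w ≤ s ∧ be w ≤ f w)
    (hbem : ∀ v w, v ∉ A → w ∉ A → v ≤ w → be v ≤ be w)
    (hj : ∀ x w : P, x < w → x ∈ A → w ∉ A → be w < s → ∃ z : P, IsLUB ({be w, f x} : Set P) z)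
    (ht : CoverTame {e | ∃ x w, x < w ∧ x ∈ A ∧ w ∉ A ∧ be w < s ∧ f x = e}) :
    ∃ x : P, f x = x := by
  classical
  let C : Set P := {x | x ∈ A ∧ ∃ w, x < w ∧ w ∉ A ∧ be w < s}
  let U : Set P := {y | y ∉ C ∧ (y ∈ A ∨ ¬ be y < s)}
  have hUC : ∀ y, y ∈ U → y ∉ C := fun y hy => hy.1
  have hnot : ∀ y, y ∉ C → y ∉ U → y ∉ A ∧ be y < s := by
    intro y hyC hyU
    by_contra h
    apply hyU
    refine ⟨hyC, ?_⟩
    by_cases hyA : y ∈ A
    · exact Or.inl hyA
    · exact Or.inr (fun hb => h ⟨hyA, hb⟩)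
  have hUup : ∀ x y, x ≤ y → x ∈ U → y ∈ U := by
    rintro x y hxy ⟨hxC, hx⟩
    -- no critical point above `y`
    have key : ∀ w, y ≤ w → w ∉ A → ¬ be w < s := by
      intro w hyw hwA hws
      rcases hx with hxA | hxb
      · have hne : x ≠ w := fun h => hwA (h ▸ hxA)
        exact hxC ⟨hxA, w, lt_of_le_of_ne (hxy.trans hyw) hne, hwA, hws⟩
      · by_cases hxA : x ∈ A
        · have hne : x ≠ w := fun h => hwA (h ▸ hxA)
          exact hxC ⟨hxA, w, lt_of_le_of_ne (hxy.trans hyw) hne, hwA, hws⟩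
        · exact hxb (lt_of_le_of_lt (hbem x w hxA hwA (hxy.trans hyw)) hws)
    refine ⟨?_, ?_⟩
    · rintro ⟨-, w, h1, h2, h3⟩
      exact key w h1.le h2 h3
    · by_cases hyA : y ∈ A
      · exact Or.inl hyA
      · exact Or.inr (key y le_rfl hyA)
  have hlub : ∀ y, y ∈ U → ∃ z : P, IsLUB ({s, f y} : Set P) z := by
    rintro y ⟨-, hy⟩
    by_cases hyA : y ∈ A
    · exact hA y hyA
    · have hb : ¬ be y < s := hy.resolve_left hyA
      have hbs : be y = s := by
        rcases (hbe y hyA).1.eq_or_lt with h | h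
        · exact h
        · exact absurd h hb
      refine ⟨f y, ?_, fun z hz => hz (by simp)⟩
      rintro z (rfl | rfl)
      · exact hbs ▸ (hbe y hyA).2
      · exact le_rfl
  let g : P → P := fun y => if h : y ∈ U then (hlub y h).choose else f y
  have hgU : ∀ y ∈ U, IsLUB ({s, f y} : Set P) (g y) := by
    intro y hy
    simp only [g, dif_pos hy]
    exact (hlub y hy).choose_spec
  have hgf : ∀ y, y ∉ U → g y = f y := by
    intro y hy
    simp only [g, dif_neg hy]
  have hfg : ∀ y, f y ≤ g y := by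
    intro y
    by_cases hy : y ∈ U
    · exact (hgU y hy).1 (by simp)
    · exact (hgf y hy).ge
  have hg : Monotone g := by
    intro x y hxy
    by_cases hx : x ∈ U
    · have hy := hUup x y hxy hx
      refine (hgU x hx).2 ?_
      rintro z (rfl | rfl)
      · exact (hgU y hy).1 (by simp)
      · exact (hf hxy).trans (hfg y)
    · rw [hgf x hx]
      exact (hf hxy).trans (hfg y)
  let be' : P → P := fun y => if y ∈ U then s else be y
  have hbU : ∀ y, y ∈ U → be' y = s := fun y hy => by simp only [be', if_pos hy]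
  have hbn : ∀ y, y ∉ U → be' y = be y := fun y hy => by simp only [be', if_neg hy]
  have himg : g '' C = {e | ∃ x w, x < w ∧ x ∈ A ∧ w ∉ A ∧ be w < s ∧ f x = e} := by
    ext e
    constructor
    · rintro ⟨x, ⟨hxA, w, h1, h2, h3⟩, rfl⟩
      exact ⟨x, w, h1, hxA, h2, h3, (hgf x (fun hU => hU.1 ⟨hxA, w, h1, h2, h3⟩)).symm⟩
    · rintro ⟨x, w, h1, hxA, h2, h3, rfl⟩
      exact ⟨x, ⟨hxA, w, h1, h2, h3⟩, hgf x (fun hU => hU.1 ⟨hxA, w, h1, h2, h3⟩)⟩
  have key : ∃ x, g x = x := by
    refine main_general P hfin s g hg C g be' (fun x _ => le_rfl) (fun x _ y _ h => hg h) ?_ ?_ ?_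
      ?_ (fun x _ y _ h => hg h.le) ?_ (himg ▸ ht)
    · intro x hx
      rw [hgf x (fun hU => hU.1 hx)]
      exact hA x hx.1
    · intro y hy
      by_cases hU : y ∈ U
      · rw [hbU y hU]
      · rw [hbn y hU]
        exact (hbe y (hnot y hy hU).1).1
    · intro y hy
      by_cases hU : y ∈ U
      · rw [hbU y hU]
        exact (hgU y hU).1 (by simp)
      · rw [hbn y hU, hgf y hU]
        exact (hbe y (hnot y hy hU).1).2
    · intro x hx y hy hxy
      by_cases hyU : y ∈ U
      · rw [hbU y hyU]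
        by_cases hxU : x ∈ U
        · rw [hbU x hxU]
        · rw [hbn x hxU]
          exact (hbe x (hnot x hx hxU).1).1
      · have hxU : x ∉ U := fun h => hyU (hUup x y hxy h)
        rw [hbn x hxU, hbn y hyU]
        exact hbem x y (hnot x hx hxU).1 (hnot y hy hyU).1 hxy
    · intro x hx y hy hxy hby
      have hyU : y ∉ U := by
        intro h
        rw [hbU y h] at hby
        exact lt_irrefl _ hby
      rw [hbn y hyU, hgf x (fun hU => hU.1 hx)]
      exact hj x y hxy hx.1 (hnot y hy hyU).1 (hnot y hy hyU).2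
  obtain ⟨x, hx⟩ := key
  obtain ⟨n, hn⟩ := hfin
  exact Helper31.FX.fix_of_ge n hn f hf x ((hfg x).trans hx.le)

/-- **The values `be w` of the critical pairs.** (Built on helper73's selection theorem.) -/
theorem main_sel_D (P : Type u) [PartialOrder P]
    (hfin : ∃ n : ℕ, ∀ c : Finset P, IsChain (· ≤ ·) (c : Set P) → c.card ≤ n) (s : P)
    (f : P → P) (hf : Monotone f)
    (A : Set P) (hA : ∀ x ∈ A, ∃ z : P, IsLUB ({s, f x} : Set P) z)
    (be : P → P) (hbe : ∀ w, w ∉ A → be w ≤ s ∧ be w ≤ f w)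
    (hbem : ∀ v w, v ∉ A → w ∉ A → v ≤ w → be v ≤ be w)
    (hj : ∀ x w : P, x < w → x ∈ A → w ∉ A → be w < s → ∃ z : P, IsLUB ({be w, f x} : Set P) z)
    (ht : CoverTame {e | ∃ x w, x < w ∧ x ∈ A ∧ w ∉ A ∧ be w < s ∧ be w = e}) :
    ∃ x : P, f x = x := by
  classical
  let V : Set P := {w | ∀ x, x ≤ w → x ∉ A}
  have hVA : ∀ w ∈ V, w ∉ A := fun w hw => hw w le_rfl
  have hVd : ∀ v w, v ≤ w → w ∈ V → v ∈ V := fun v w hvw hw x hx => hw x (hx.trans hvw)
  let g : P → P := fun w => if w ∈ V then be w else f w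
  have hgV : ∀ w ∈ V, g w = be w := fun w hw => by simp only [g, if_pos hw]
  have hgn : ∀ w, w ∉ V → g w = f w := fun w hw => by simp only [g, if_neg hw]
  have hgle : ∀ w, g w ≤ f w := by
    intro w
    by_cases hw : w ∈ V
    · rw [hgV w hw]
      exact (hbe w (hVA w hw)).2
    · exact (hgn w hw).le
  have hg : Monotone g := by
    intro v w hvw
    by_cases hw : w ∈ V
    · have hv := hVd v w hvw hw
      rw [hgV v hv, hgV w hw]
      exact hbem v w (hVA v hv) (hVA w hw) hvw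
    · rw [hgn w hw]
      exact (hgle v).trans (hf hvw)
  have key : ∃ x, g x = x := by
    refine Helper73.FX.main_cover3 P hfin s g hg (A ∪ V) ?_ be ?_ ?_ ?_ ?_
    · rintro x (hx | hx)
      · rw [hgn x (fun h => hVA x h hx)]
        exact hA x hx
      · rw [hgV x hx]
        refine ⟨s, ?_, fun z hz => hz (by simp)⟩
        rintro z (rfl | rfl)
        · exact le_rfl
        · exact (hbe x (hVA x hx)).1
    · intro w hw
      have h1 : w ∉ A := fun h => hw (Or.inl h)
      have h2 : w ∉ V := fun h => hw (Or.inr h)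
      rw [hgn w h2]
      exact hbe w h1
    · intro v w hv hw hvw
      exact hbem v w (fun h => hv (Or.inl h)) (fun h => hw (Or.inl h)) hvw
    · rintro x w hxw (hx | hx) hw hws
      · rw [hgn x (fun h => hVA x h hx)]
        exact hj x w hxw hx (fun h => hw (Or.inl h)) hws
      · rw [hgV x hx]
        refine ⟨be w, ?_, fun z hz => hz (by simp)⟩
        rintro z (rfl | rfl)
        · exact le_rfl
        · exact hbem x w (hVA x hx) (fun h => hw (Or.inl h)) hxw.le
    · have : {e | ∃ w, w ∉ A ∪ V ∧ be w < s ∧ be w = e} =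
          {e | ∃ x w, x < w ∧ x ∈ A ∧ w ∉ A ∧ be w < s ∧ be w = e} := by
        ext e
        constructor
        · rintro ⟨w, hw, hws, rfl⟩
          have h1 : w ∉ A := fun h => hw (Or.inl h)
          have h2 : ∃ x, x ≤ w ∧ x ∈ A := by
            by_contra h
            push Not at h
            exact hw (Or.inr h)
          obtain ⟨x, hxw, hxA⟩ := h2
          refine ⟨x, w, lt_of_le_of_ne hxw ?_, hxA, h1, hws, rfl⟩
          rintro rfl
          exact h1 hxA
        · rintro ⟨x, w, hxw, hxA, hwA, hws, rfl⟩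
          refine ⟨w, ?_, hws, rfl⟩
          rintro (h | h)
          · exact hwA h
          · exact h x hxw.le hxA
      rw [this]
      exact ht
  obtain ⟨x, hx⟩ := key
  obtain ⟨n, hn⟩ := hfin
  exact Helper31.FX.fix_of_le n hn f hf x (hx.ge.trans (hgle x))

/-- The order dual of `main_sel_N`. -/
theorem main_sel_N_dual (P : Type u) [PartialOrder P]
    (hfin : ∃ n : ℕ, ∀ c : Finset P, IsChain (· ≤ ·) (c : Set P) → c.card ≤ n) (s : P)
    (f : P → P) (hf : Monotone f)
    (A : Set P) (hA : ∀ x ∈ A, ∃ z : P, IsGLB ({s, f x} : Set P) z)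
    (be : P → P) (hbe : ∀ w, w ∉ A → s ≤ be w ∧ f w ≤ be w)
    (hbem : ∀ v w, v ∉ A → w ∉ A → v ≤ w → be v ≤ be w)
    (hj : ∀ x w : P, w < x → x ∈ A → w ∉ A → s < be w → ∃ z : P, IsGLB ({be w, f x} : Set P) z)
    (ht : CoverTame {e | ∃ x w, w < x ∧ x ∈ A ∧ w ∉ A ∧ s < be w ∧ f x = e}) :
    ∃ x : P, f x = x := by
  obtain ⟨n, hn⟩ := hfin
  exact main_sel_N Pᵒᵈ ⟨n, fun c hc => hn c (by
    intro a ha b hb hab
    exact (hc ha hb hab).symm)⟩ (OrderDual.toDual s)
    (fun x => OrderDual.toDual (f (OrderDual.ofDual x))) (fun a b hab => hf hab)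
    (OrderDual.ofDual ⁻¹' A) (fun x hx => hA (OrderDual.ofDual x) hx)
    (fun x => OrderDual.toDual (be (OrderDual.ofDual x)))
    (fun w hw => hbe (OrderDual.ofDual w) hw)
    (fun v w h1 h2 h3 => hbem (OrderDual.ofDual w) (OrderDual.ofDual v) h2 h1 h3)
    (fun x w h1 h2 h3 h4 => hj (OrderDual.ofDual x) (OrderDual.ofDual w) h1 h2 h3 h4)
    (coverTame_dual _ ht)

/-- The order dual of `main_sel_D`. -/
theorem main_sel_D_dual (P : Type u) [PartialOrder P]
    (hfin : ∃ n : ℕ, ∀ c : Finset P, IsChain (· ≤ ·) (c : Set P) → c.card ≤ n) (s : P)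
    (f : P → P) (hf : Monotone f)
    (A : Set P) (hA : ∀ x ∈ A, ∃ z : P, IsGLB ({s, f x} : Set P) z)
    (be : P → P) (hbe : ∀ w, w ∉ A → s ≤ be w ∧ f w ≤ be w)
    (hbem : ∀ v w, v ∉ A → w ∉ A → v ≤ w → be v ≤ be w)
    (hj : ∀ x w : P, w < x → x ∈ A → w ∉ A → s < be w → ∃ z : P, IsGLB ({be w, f x} : Set P) z)
    (ht : CoverTame {e | ∃ x w, w < x ∧ x ∈ A ∧ w ∉ A ∧ s < be w ∧ be w = e}) :
    ∃ x : P, f x = x := by
  obtain ⟨n, hn⟩ := hfin
  exact main_sel_D Pᵒᵈ ⟨n, fun c hc => hn c (by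
    intro a ha b hb hab
    exact (hc ha hb hab).symm)⟩ (OrderDual.toDual s)
    (fun x => OrderDual.toDual (f (OrderDual.ofDual x))) (fun a b hab => hf hab)
    (OrderDual.ofDual ⁻¹' A) (fun x hx => hA (OrderDual.ofDual x) hx)
    (fun x => OrderDual.toDual (be (OrderDual.ofDual x)))
    (fun w hw => hbe (OrderDual.ofDual w) hw)
    (fun v w h1 h2 h3 => hbem (OrderDual.ofDual w) (OrderDual.ofDual v) h2 h1 h3)
    (fun x w h1 h2 h3 h4 => hj (OrderDual.ofDual x) (OrderDual.ofDual w) h1 h2 h3 h4)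
    (coverTame_dual _ ht)

end Pool.Agent.Helper83.NX
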